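import Mathlib
import Pool.Agent.R570.PS.Rat2

set_option autoImplicit false

/-!
# Weak evasiveness for monotone functions on dual polar spaces (MP_d4e2f9_lc)

Let `V` be a vector space over a finite field with a non-degenerate alternating, hermitian or
symmetric form (more generally a trace-valued `(σ, ε)`-hermitian form) or a non-singular quadratic
form, and let `X` be the set of the maximal totally singular subspaces `M` of `V`, `n = |X|`. Every
non-constant monotone Boolean function of `n` variables indexed by `X` which is invariant under the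
isometry group has decision tree complexity at least the number of `M` in `X` with `M ∩ M₀ = 0` for
some `M₀` in `X`, and this number is at least `n / 8`. (In the symplectic case of dimension `2 m`
over the field with `q` elements `n` is the product of the `q ^ i + 1`, `i ≤ m`, and the number is
`q ^ (m (m + 1) / 2)`.)

Proof. Let `u` be a singular vector, `(u, w)` a hyperbolic pair and `W = {u, w}^⊥`. The map
`M ↦ (M ∩ u^⊥ + u) ∩ W` from the `M` in `X` without `u` to the maximal totally singular subspaces of
`W` has as its fibres the orbits of the unipotent radical of the stabilizer of `u`, a `p`-group.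
A small decision tree implies that the alternating sums of `f` over large subcubes vanish, and
modulo `p` this property passes to the function on the space of orbits. By induction on the
dimension, `f` has the same value on `{M : u ∉ M}` and on the empty set and, similarly, on
`{M : u ∈ M}` and on `X`. As no `M` contains `u` and `w`, `f` is constant.
-/

namespace Pool.Agent.Results.MP_d4e2f9_lc.DualPolarSpaces

open Module

/-- `f` is computed by a decision tree of depth at most `d`, in the words of the frozen statement
of the problem: every predicate closed under the formation of decision trees holds for it. -/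
def DepthLe {X : Type} [DecidableEq X] (d : ℕ) (f : (X → Bool) → Bool) : Prop :=
  ∀ P : ℕ → ((X → Bool) → Bool) → Prop,
    (∀ (m : ℕ) (g : (X → Bool) → Bool), (∀ x y, g x = g y) → P m g) →
    (∀ (m : ℕ) (g : (X → Bool) → Bool) (i : X),
       P m (fun x => g (Function.update x i false)) →
       P m (fun x => g (Function.update x i true)) → P (m + 1) g) →
    P d f

variable {F V : Type} [Field F] [AddCommGroup V] [Module F V]

/-- The maximal totally singular subspaces `M` for a form `B` and a set `S` of vectors, the singular
ones: all vectors of `M` are singular and pairwise orthogonal, and `M` contains every singular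
vector which is orthogonal to all vectors of `M`. -/
def MaxSingular {σ : F →+* F} (B : V →ₛₗ[σ] V →ₗ[F] F) (S : V → Prop) : Type :=
  {M : Submodule F V // ((∀ v ∈ M, S v) ∧ ∀ v ∈ M, ∀ w ∈ M, B v w = 0) ∧
    ∀ v, S v → (∀ m ∈ M, B m v = 0) → v ∈ M}

/-- **Weak evasiveness for functions on dual polar spaces.** Let `F` be a finite field.
(1) Let `B` be a trace-valued `(σ, ε)`-hermitian form on `V` (`σ = id`: symmetric or alternating
forms; trace-valued means that all `B v v` are of the form `t + ε σ(t)`, this is automatic except
for symmetric non-alternating forms in characteristic `2`), no isotropic vector except `0` being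
orthogonal to all of `V`, and let `X` be the set of the maximal totally isotropic subspaces. Let `f`
be a non-constant monotone function of Boolean variables indexed by `X`, invariant under the
isometry group (if `x M = y (g M)` for all `M`, then `f x = f y`), and computed by a decision tree
of depth at most `d`. Then there is `M₀` in `X` such that at most `d` of the `M` in `X` satisfy
`M ∩ M₀ = 0`, and `|X| ≤ 8 d`.
(2) The same for quadratic forms. -/
theorem result [Finite F] [FiniteDimensional F V] :
    (∀ (σ : F →+* F) (ε : F) (B : V →ₛₗ[σ] V →ₗ[F] F), (∀ a, σ (σ a) = a) → ε * σ ε = 1 →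
      (∀ v w, B w v = ε * σ (B v w)) → (∀ v, ∃ t, B v v = t + ε * σ t) →
      (∀ u, u ≠ 0 → B u u = 0 → ∃ v, B u v ≠ 0) →
      ∀ [DecidableEq (MaxSingular B (fun v => B v v = 0))]
        (f : (MaxSingular B (fun v => B v v = 0) → Bool) → Bool), Monotone f →
        (∃ x y, f x ≠ f y) →
        (∀ g : V ≃ₗ[F] V, (∀ v w, B (g v) (g w) = B v w) →
          ∀ x y : MaxSingular B (fun v => B v v = 0) → Bool,
          (∀ M N : MaxSingular B (fun v => B v v = 0),
            N.1 = M.1.map (g : V →ₗ[F] V) → x M = y N) → f x = f y) →
        ∀ d : ℕ, DepthLe d f →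
          (∃ M₀ : MaxSingular B (fun v => B v v = 0),
            Nat.card {M : MaxSingular B (fun v => B v v = 0) // M.1 ⊓ M₀.1 = ⊥} ≤ d) ∧
          Nat.card (MaxSingular B (fun v => B v v = 0)) ≤ 8 * d) ∧
    (∀ Q : QuadraticForm F V, (∀ u, u ≠ 0 → Q u = 0 → ∃ v, QuadraticMap.polar Q u v ≠ 0) →
      ∀ [DecidableEq (MaxSingular Q.polarBilin (fun v => Q v = 0))]
        (f : (MaxSingular Q.polarBilin (fun v => Q v = 0) → Bool) → Bool), Monotone f →
        (∃ x y, f x ≠ f y) →
        (∀ g : V ≃ₗ[F] V, (∀ v, Q (g v) = Q v) →
          ∀ x y : MaxSingular Q.polarBilin (fun v => Q v = 0) → Bool,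
          (∀ M N : MaxSingular Q.polarBilin (fun v => Q v = 0),
            N.1 = M.1.map (g : V →ₗ[F] V) → x M = y N) → f x = f y) →
        ∀ d : ℕ, DepthLe d f →
          (∃ M₀ : MaxSingular Q.polarBilin (fun v => Q v = 0),
            Nat.card {M : MaxSingular Q.polarBilin (fun v => Q v = 0) // M.1 ⊓ M₀.1 = ⊥} ≤ d) ∧
          Nat.card (MaxSingular Q.polarBilin (fun v => Q v = 0)) ≤ 8 * d) := by
  have hV : Finite V := Module.finite_of_finite F
  have key : ∀ (σ : F →+* F) (ε : F) (B : V →ₛₗ[σ] V →ₗ[F] F) (S : V → Prop)
      (G : Subgroup (V ≃ₗ[F] V)), R570.PS.Pol σ ε B S G → ∀ (i : DecidableEq (MaxSingular B S))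
      (f : (MaxSingular B S → Bool) → Bool), Monotone f → (∃ x y, f x ≠ f y) →
      (∀ g ∈ G, ∀ x y : MaxSingular B S → Bool,
          (∀ M N : MaxSingular B S, N.1 = M.1.map (g : V →ₗ[F] V) → x M = y N) → f x = f y) →
      ∀ d : ℕ, @DepthLe _ i d f → (∃ M₀ : MaxSingular B S,
          Nat.card {M : MaxSingular B S // M.1 ⊓ M₀.1 = ⊥} ≤ d) ∧
          Nat.card (MaxSingular B S) ≤ 8 * d := by
    intro σ ε B S G hP i f hmono hne hinv d hd
    have hi : i = R570.PS.instDeXX := Subsingleton.elim _ _
    subst hi
    obtain ⟨M0, hM0⟩ := R570.PS.dual_main hP f hmono hne hinv hd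
    have h8 := R570.PS.ratio8 hP M0
    refine ⟨⟨M0, ?_⟩, h8.trans (Nat.mul_le_mul_left 8 hM0)⟩
    refine le_trans (le_of_eq ?_) hM0
    rw [← Nat.card_eq_finsetCard]
    exact Nat.card_congr (Equiv.subtypeEquivRight fun M => (R570.PS.mem_opp M0 M).symm)
  constructor
  · intro σ ε B hss hee hherm htr hnd i f hmono hne hinv d hd
    let G : Subgroup (V ≃ₗ[F] V) :=
      { carrier := {g | ∀ v w, B (g v) (g w) = B v w}
        mul_mem' := fun {a b} ha hb v w => (ha (b v) (b w)).trans (hb v w)
        one_mem' := fun _ _ => rfl
        inv_mem' := fun {a} ha v w => by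
          have h := ha (a⁻¹ v) (a⁻¹ w)
          have e : ∀ x, a (a⁻¹ x) = x := fun x => a.apply_symm_apply x
          rw [e, e] at h
          exact h.symm }
    have hP := R570.PS.pol_herm σ ε B G (fun _ => Iff.rfl) hss hee hherm htr hnd
    exact key σ ε B _ G hP i f hmono hne (fun g hg => hinv g hg) d hd
  · intro Q hnd i f hmono hne hinv d hd
    let G : Subgroup (V ≃ₗ[F] V) :=
      { carrier := {g | ∀ v, Q (g v) = Q v}
        mul_mem' := fun {a b} ha hb v => (ha (b v)).trans (hb v)
        one_mem' := fun _ => rfl
        inv_mem' := fun {a} ha v => by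
          have h := ha (a⁻¹ v)
          have e : a (a⁻¹ v) = v := a.apply_symm_apply v
          rw [e] at h
          exact h.symm }
    have hP := R570.PS.pol_quad Q G (fun _ => Iff.rfl) hnd
    exact key (RingHom.id F) 1 Q.polarBilin _ G hP i f hmono hne (fun g hg => hinv g hg) d hd

end Pool.Agent.Results.MP_d4e2f9_lc.DualPolarSpaces
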