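import Mathlib
import Pool.Agent.R570.PS.Inst

set_option autoImplicit false

/-!
# Weak evasiveness for monotone functions on the points of classical polar spaces (MP_d4e2f9_lc)

Let `V` be a vector space of dimension `m` over the field with `q` elements with a non-degenerate
alternating, hermitian, symmetric (or, more generally, trace-valued `(σ, ε)`-hermitian) form, or
with a non-singular quadratic form, and let `n` be the number of isotropic (singular) points, that
is, of the one-dimensional subspaces on which the form is zero. Every non-constant monotone Boolean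
function of `n` variables indexed by these points which is invariant under the isometry group has
decision tree complexity at least `n (q - 1) / (2 q - 1) ≥ n / 3` and at least `q ^ (m - 2)`, in the
symplectic case at least `q ^ (m - 1) ≥ (1 - 1 / q) n`. The variables may also be indexed by any
finite set with an action of the isometry group and an equivariant map to the points (for instance
by the flags which contain a point).

Proof. Let `O_y` be the set of the points which are not perpendicular to the point `y`. The
unipotent radical `U_y` of the stabilizer of `y` is a `p`-group and is transitive on `O_y` (Siegel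
transformations), so a decision tree of depth less than `|O_y|` does not distinguish `Y` and
`Y ∪ O_y` if `Y` is `U_y`-invariant and disjoint from `O_y` (Rivest, Vuillemin). For a totally
singular subspace `M` and a singular point `y` perpendicular to `M`, the set of the points of
`(M + y)^⊥` is `U_y`-invariant. Starting from all points one descends to the points of `M^⊥` for a
maximal totally singular `M`, that is, to the points of `M`: the function is `1` there. The dual
function is also `1` on the points of a maximal totally singular `M'`. As `M` and `M'` can be chosen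
disjoint, this is a contradiction.
-/

namespace Pool.Agent.Results.MP_d4e2f9_lc.PolarSpaces

open Module

/-- `f` is computed by a decision tree of depth at most `d`, in the words of the frozen statement
of the problem: every predicate closed under the formation of decision trees holds for it. -/
def DepthLe {X : Type} [DecidableEq X] (d : ℕ) (f : (X → Bool) → Bool) : Prop :=
  ∀ P : ℕ → ((X → Bool) → Bool) → Prop,
    (∀ (m : ℕ) (g : (X → Bool) → Bool), (∀ x y, g x = g y) → P m g) →
    (∀ (m : ℕ) (g : (X → Bool) → Bool) (i : X),
       P m (fun x => g (Function.update x i false)) →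
       P m (fun x => g (Function.update x i true)) → P (m + 1) g) →
    P d f

variable {F V : Type} [Field F] [AddCommGroup V] [Module F V]

/-- The isometry group of a (sesquilinear) form `B`. -/
def Isom {σ : F →+* F} (B : V →ₛₗ[σ] V →ₗ[F] F) : Subgroup (V ≃ₗ[F] V) where
  carrier := {g | ∀ v w, B (g v) (g w) = B v w}
  mul_mem' := fun {a b} ha hb v w => (ha (b v) (b w)).trans (hb v w)
  one_mem' := fun _ _ => rfl
  inv_mem' := fun {a} ha v w => by
    have h := ha (a⁻¹ v) (a⁻¹ w)
    have e : ∀ x, a (a⁻¹ x) = x := fun x => a.apply_symm_apply x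
    rw [e, e] at h
    exact h.symm

/-- The isotropic points of `B`: the subspaces spanned by a vector `u ≠ 0` with `B u u = 0`. -/
def IsotropicPoint {σ : F →+* F} (B : V →ₛₗ[σ] V →ₗ[F] F) : Type :=
  {x : Submodule F V // ∃ u, u ≠ 0 ∧ B u u = 0 ∧ x = F ∙ u}

/-- The isometry group of a quadratic form `Q`. -/
def Orth (Q : QuadraticForm F V) : Subgroup (V ≃ₗ[F] V) where
  carrier := {g | ∀ v, Q (g v) = Q v}
  mul_mem' := fun {a b} ha hb v => (ha (b v)).trans (hb v)
  one_mem' := fun _ => rfl
  inv_mem' := fun {a} ha v => by
    have h := ha (a⁻¹ v)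
    have e : a (a⁻¹ v) = v := a.apply_symm_apply v
    rw [e] at h
    exact h.symm

/-- The singular points of `Q`: the subspaces spanned by a vector `u ≠ 0` with `Q u = 0`. -/
def SingularPoint (Q : QuadraticForm F V) : Type :=
  {x : Submodule F V // ∃ u, u ≠ 0 ∧ Q u = 0 ∧ x = F ∙ u}

/-- **Weak evasiveness for functions on the points of polar spaces.** Let `F` be the field with `q`
elements, `dim V = m`, and let `f` be a non-constant monotone function of Boolean variables indexed
by the finite set `X`, computed by a decision tree of depth at most `d`.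
(1) Let `B` be a trace-valued `(σ, ε)`-hermitian form on `V` (`σ = id`: symmetric or alternating
forms; trace-valued means that all `B v v` are of the form `t + ε σ(t)`, this is automatic except
for symmetric non-alternating forms in characteristic `2`), no isotropic vector except `0` being
orthogonal to all of `V`. Let the isometry group of `B` act on `X` with an equivariant map `π` to
the isotropic points (for instance `X` is the set of all isotropic points), and let `f` be invariant.
Then `(q - 1) n ≤ (2 q - 1) d`, hence `n ≤ 3 d`, where `n` is the number of the isotropic points,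
`q ^ (m - 1) ≤ q d`, and `q ^ (m - 1) ≤ d` if `B` is alternating.
(2) The same, except for the last part, for quadratic forms and singular points. -/
theorem result [Finite F] [FiniteDimensional F V] {X : Type} [Finite X] [DecidableEq X]
    (f : (X → Bool) → Bool) (hmono : Monotone f) (hne : ∃ x y, f x ≠ f y) (d : ℕ)
    (hd : DepthLe d f) :
    (∀ (σ : F →+* F) (ε : F) (B : V →ₛₗ[σ] V →ₗ[F] F), (∀ a, σ (σ a) = a) → ε * σ ε = 1 →
      (∀ v w, B w v = ε * σ (B v w)) → (∀ v, ∃ t, B v v = t + ε * σ t) →
      (∀ u, u ≠ 0 → B u u = 0 → ∃ v, B u v ≠ 0) →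
      ∀ [MulAction (Isom B) X] (π : X → IsotropicPoint B),
        (∀ (g : Isom B) (x : X), (π (g • x)).1 = (π x).1.map (g.1 : V →ₗ[F] V)) →
        (∀ (g : Isom B) (x : X → Bool), f (fun v => x (g • v)) = f x) →
        (Nat.card F - 1) * Nat.card (IsotropicPoint B) ≤ (2 * Nat.card F - 1) * d ∧
        Nat.card (IsotropicPoint B) ≤ 3 * d ∧
        Nat.card F ^ (finrank F V - 1) ≤ Nat.card F * d ∧
        ((∀ v, B v v = 0) → Nat.card F ^ (finrank F V - 1) ≤ d)) ∧
    (∀ Q : QuadraticForm F V, (∀ u, u ≠ 0 → Q u = 0 → ∃ v, QuadraticMap.polar Q u v ≠ 0) →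
      ∀ [MulAction (Orth Q) X] (π : X → SingularPoint Q),
        (∀ (g : Orth Q) (x : X), (π (g • x)).1 = (π x).1.map (g.1 : V →ₗ[F] V)) →
        (∀ (g : Orth Q) (x : X → Bool), f (fun v => x (g • v)) = f x) →
        (Nat.card F - 1) * Nat.card (SingularPoint Q) ≤ (2 * Nat.card F - 1) * d ∧
        Nat.card (SingularPoint Q) ≤ 3 * d ∧
        Nat.card F ^ (finrank F V - 1) ≤ Nat.card F * d) := by
  have hq : 2 ≤ Nat.card F := Finite.one_lt_card
  have h3 : ∀ n : ℕ, (Nat.card F - 1) * n ≤ (2 * Nat.card F - 1) * d → n ≤ 3 * d := by
    intro n h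
    obtain ⟨k, hk⟩ : ∃ k, Nat.card F = k + 2 := ⟨Nat.card F - 2, by omega⟩
    rw [hk] at h
    have e1 : k + 2 - 1 = k + 1 := by omega
    have e2 : 2 * (k + 2) - 1 = 2 * k + 3 := by omega
    rw [e1, e2] at h
    have h4 : (k + 1) * n ≤ (k + 1) * (3 * d) := by
      refine h.trans ?_
      nlinarith [Nat.zero_le (k * d)]
    exact Nat.le_of_mul_le_mul_left h4 (Nat.succ_pos k)
  constructor
  · intro σ ε B hss hee hherm htr hnd _ π hπ hinv
    have hP := R570.PS.pol_herm σ ε B (Isom B) (fun _ => Iff.rfl) hss hee hherm htr hnd
    obtain ⟨a1, a2, a3⟩ := R570.PS.final hP π hπ f hmono hne hinv hd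
    exact ⟨a1, h3 _ a1, a2, a3⟩
  · intro Q hnd _ π hπ hinv
    have hP := R570.PS.pol_quad Q (Orth Q) (fun _ => Iff.rfl) hnd
    obtain ⟨a1, a2, a3⟩ := R570.PS.final hP π hπ f hmono hne hinv hd
    exact ⟨a1, h3 _ a1, a2⟩

/-- The tautological case: functions of the isotropic points, invariance spelled out: if
`x p = y (g p)` for all points `p`, then `f x = f y`. -/
theorem isotropic [Finite F] [FiniteDimensional F V] (σ : F →+* F) (ε : F)
    (B : V →ₛₗ[σ] V →ₗ[F] F) (hss : ∀ a, σ (σ a) = a) (hee : ε * σ ε = 1)
    (hherm : ∀ v w, B w v = ε * σ (B v w)) (htr : ∀ v, ∃ t, B v v = t + ε * σ t)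
    (hnd : ∀ u, u ≠ 0 → B u u = 0 → ∃ v, B u v ≠ 0) [DecidableEq (IsotropicPoint B)]
    (f : (IsotropicPoint B → Bool) → Bool) (hmono : Monotone f) (hne : ∃ x y, f x ≠ f y)
    (hinv : ∀ g ∈ Isom B, ∀ x y : IsotropicPoint B → Bool,
      (∀ p p' : IsotropicPoint B, p'.1 = p.1.map (g : V →ₗ[F] V) → x p = y p') → f x = f y)
    (d : ℕ) (hd : DepthLe d f) : Nat.card (IsotropicPoint B) ≤ 3 * d := by
  have hV : Finite V := Module.finite_of_finite F
  have : Finite (IsotropicPoint B) := by
    have hfin : Finite (Submodule F V) :=
      Finite.of_injective (fun W : Submodule F V => (W : Set V)) SetLike.coe_injective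
    unfold IsotropicPoint
    infer_instance
  have hP := R570.PS.pol_herm σ ε B (Isom B) (fun _ => Iff.rfl) hss hee hherm htr hnd
  let _ : MulAction (Isom B) (IsotropicPoint B) := R570.PS.actPt hP
  refine ((result f hmono hne d hd).1 σ ε B hss hee hherm htr hnd (fun p => p)
    (fun g p => rfl) ?_).2.1
  intro g x
  refine hinv g.1 g.2 _ _ ?_
  intro p p' h
  have : g • p = p' := Subtype.ext h.symm
  rw [this]

end Pool.Agent.Results.MP_d4e2f9_lc.PolarSpaces
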