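import Pool.Agent.R282.EV.Orbs

/-! # Degrees divisible by a power of 30

The starting result `ManyDegrees` gives SOME `m ≥ 2` such that the evasiveness conjecture fails for all
multiples of `m`; `m` comes from a choice and is not computed. Here: `m` can be taken to be
`30 ^ 2404`, so that only the primes 2, 3 and 5 matter.

Definitions (`Pool/Agent/Y825/EV/Many.lean`): `Shallow n k` says that some non-constant monotone
transitive Boolean function `f` of `n` variables is computed by a deterministic decision tree of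
depth at most `k`, i.e. has `D(f) ≤ k`. -/

set_option autoImplicit false

namespace Pool.Agent.Results.MP_d4e2f9_lc.PowersOfThirty

open Pool.Agent.Y825.EV

/-- 1. For every positive multiple `n` of `30 ^ 2404` there is a non-constant monotone transitive
Boolean function of `n` variables with `D(f) ≤ n - n / 30 ^ 2404`; in particular it is not evasive.
2. Weak evasiveness fails for all `n` divisible by a sufficiently high power of `30`, with an
explicit exponent: if `30 ^ j` divides `n`, `j ≥ 2404` and `n ≤ 30 ^ (C j)` then some non-constant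
monotone transitive Boolean function of `n` variables has
`D(f) < n ^ (1 - 1 / (16 · 2404 · C · 30 ^ 2404))`.
3. In particular (`C = 1`) this holds for all the numbers `n = 30 ^ j` with `j ≥ 2404`. -/
theorem result :
    (∀ n : ℕ, 1 ≤ n → 30 ^ 2404 ∣ n → Shallow n (n - n / 30 ^ 2404)) ∧
    (∀ C n j : ℕ, 1 ≤ C → 1 ≤ n → 2404 ≤ j → 30 ^ j ∣ n → n ≤ 30 ^ (C * j) →
      ∃ k : ℕ, Shallow n k ∧
        (k : ℝ) < (n : ℝ) ^ (1 - 1 / (16 * 2404 * C * 30 ^ 2404 : ℝ))) ∧
    (∀ j : ℕ, 2404 ≤ j → ∃ k : ℕ, Shallow (30 ^ j) k ∧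
        (k : ℝ) < ((30 ^ j : ℕ) : ℝ) ^ (1 - 1 / (16 * 2404 * 30 ^ 2404 : ℝ))) := by
  obtain ⟨m, hm, hd, h⟩ := Pool.Agent.R282.EV.exists_m'
  have h2 : ∀ C n j : ℕ, 1 ≤ C → 1 ≤ n → 2404 ≤ j → 30 ^ j ∣ n → n ≤ 30 ^ (C * j) →
      ∃ k : ℕ, Shallow n k ∧
        (k : ℝ) < (n : ℝ) ^ (1 - 1 / (16 * 2404 * C * 30 ^ 2404 : ℝ)) := by
    intro C n j hC hn hj hdv hnC
    have := Pool.Agent.R282.EV.weak m 2404 hm (by norm_num) hd h C n j hC hn hj hdv hnC
    exact_mod_cast this
  refine ⟨fun n hn hdn => Pool.Agent.R282.EV.gap m _ n hm hd (by positivity) h hn hdn, h2,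
    fun j hj => ?_⟩
  obtain ⟨k, hk1, hk2⟩ := h2 1 (30 ^ j) j le_rfl (Nat.one_le_pow _ _ (by norm_num)) hj
    (dvd_refl _) (by rw [one_mul])
  refine ⟨k, hk1, ?_⟩
  rw [Nat.cast_one, mul_one] at hk2
  exact hk2

end Pool.Agent.Results.MP_d4e2f9_lc.PowersOfThirty
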