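import Pool.Agent.R598.EV.Fin

/-!
# Weak evasiveness for monotone functions on product domains (MP_d4e2f9_lc)

The variables are indexed by a product `X₁ × ... × X_k × Y`, and the function is invariant under
the coordinatewise action of groups `G₁, ..., G_k, H`. If `H` is a transitive Oliver group with
first prime `p` (for instance generated by one cycle), and `G_i` is `(p, s_i)`-connected, then
non-constant monotone functions need decision trees of depth at least `s₁ ... s_k |Y|`. The
symmetric group of `m` points is `(p, p ^ a)`-connected for `p ^ a ≤ m`. So all monotone properties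
of `(k + 1)`-partite `(k + 1)`-uniform hypergraphs are weakly evasive: `D(f) ≥ n / 2 ^ k`, and
`D(f) ≥ n ^ (1 - 1 / t)` if all parts have at least `2 ^ t` vertices, for all `k`.

Proof.  A decision tree of depth `d` does not see an orbit with more than `d` elements of an Oliver
group (Smith theory, Lefschetz numbers), that is, `f (E) = 0` implies `f (E ∪ O) = 0` for each such
orbit `O` and each invariant set `E`. The property to reach the whole set from the empty set by
adding large orbits of `p`-groups and passing to subsets and images is inherited by products: if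
`F` runs through the sets reached in `X₂` and `O` is added to `E` in `X₁`, then
`E × X₂ ∪ O × F` is reached in `X₁ × X₂`.
-/

set_option autoImplicit false

open Finset

/-- `f` is computed by a decision tree of depth at most `d`, in the words of the frozen statement
of the problem: every predicate closed under the formation of decision trees holds for it. -/
def Pool.Agent.Results.MP_d4e2f9_lc.ProductDomains.DepthLe {X : Type} [DecidableEq X] (d : ℕ)
    (f : (X → Bool) → Bool) : Prop :=
  ∀ P : ℕ → ((X → Bool) → Bool) → Prop,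
    (∀ (m : ℕ) (g : (X → Bool) → Bool), (∀ x y, g x = g y) → P m g) →
    (∀ (m : ℕ) (g : (X → Bool) → Bool) (i : X),
       P m (fun x => g (Function.update x i false)) →
       P m (fun x => g (Function.update x i true)) → P (m + 1) g) →
    P d f

open Pool.Agent.Results.MP_d4e2f9_lc.ProductDomains in
/-- **Weak evasiveness for functions on product domains.**
(1) `f` is a monotone non-constant function of variables indexed by `∏ i, X i × Y`, invariant under
`G i` acting on the coordinate `i` and under `H` acting on `Y`, where `G i` is `(p, s i)`-connected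
and `H` is a transitive Oliver group with first prime `p`. Then `(∏ i, s i) |Y| ≤ D(f)`.
(2) The symmetric group of `X` is `(p, p ^ a)`-connected if `p ^ a ≤ |X|`; a group `G` is
`(p, |A|)`-connected if `A` is an orbit of a `p`-subgroup and some image of `A` under `G` contains
the complement of `A`.
(3) `f` is a monotone non-constant function on `m 0 × ... × m k`, invariant under all permutations
of each coordinate. Then `D(f) ≥ m j ∏_{i ≠ j} p ^ (a i)` for all primes `p` and `a i` with
`p ^ (a i) ≤ m i`, hence `D(f) ≥ n / 2 ^ k`, where `n = ∏ i, m i` is the number of variables,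
and `D(f) ≥ n ^ (1 - 1 / t)` if `2 ^ t ≤ m i` for all `i`. -/
theorem Pool.Agent.Results.MP_d4e2f9_lc.ProductDomains.result :
    (∀ (p k : ℕ) (X : Fin k → Type) (Y : Type) [∀ i, Fintype (X i)] [∀ i, DecidableEq (X i)]
      [Fintype Y] [DecidableEq Y] (s : Fin k → ℕ) (G : ∀ i, Subgroup (Equiv.Perm (X i)))
      (H : Subgroup (Equiv.Perm Y)), p.Prime → (∀ i, Pool.Agent.R598.EV.Conn p (s i) (G i)) →
      Pool.Agent.R598.EV.Oliver p H → (∀ y y', ∃ h ∈ H, h y = y') →
      ∀ f : ((∀ i, X i) × Y → Bool) → Bool, Monotone f → (∃ x y, f x ≠ f y) →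
      (∀ i, ∀ g ∈ G i, ∀ x : (∀ i, X i) × Y → Bool,
        f (fun v => x (Function.update v.1 i (g (v.1 i)), v.2)) = f x) →
      (∀ h ∈ H, ∀ x : (∀ i, X i) × Y → Bool, f (fun v => x (v.1, h v.2)) = f x) →
      ∀ d : ℕ, DepthLe d f → (∏ i, s i) * Fintype.card Y ≤ d) ∧
    (∀ (p : ℕ) (X : Type) [Fintype X] [DecidableEq X], p.Prime →
      (∀ a : ℕ, p ^ a ≤ Fintype.card X →
        Pool.Agent.R598.EV.Conn p (p ^ a) (⊤ : Subgroup (Equiv.Perm X))) ∧
      ∀ (G P : Subgroup (Equiv.Perm X)) (A : Finset X), P ≤ G → IsPGroup p P →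
        (∀ x ∈ A, ∀ y, y ∈ A ↔ ∃ g ∈ P, g x = y) →
        (∃ g ∈ G, Aᶜ ⊆ A.map g.toEmbedding) → Pool.Agent.R598.EV.Conn p A.card G) ∧
    ∀ (k : ℕ) (m : Fin (k + 1) → ℕ) (f : ((∀ i, Fin (m i)) → Bool) → Bool), Monotone f →
      (∃ x y, f x ≠ f y) →
      (∀ i, ∀ g : Equiv.Perm (Fin (m i)), ∀ x : (∀ i, Fin (m i)) → Bool,
        f (fun v => x (Function.update v i (g (v i)))) = f x) →
      ∀ d : ℕ, DepthLe d f →
        (∀ (p : ℕ) (a : Fin (k + 1) → ℕ), p.Prime → (∀ i, p ^ a i ≤ m i) → ∀ j : Fin (k + 1),
          (∏ i : Fin k, p ^ a (j.succAbove i)) * m j ≤ d) ∧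
        ∏ i, m i ≤ 2 ^ k * d ∧
        ∀ t : ℕ, 1 ≤ t → (∀ i, 2 ^ t ≤ m i) →
          ((∏ i, m i : ℕ) : ℝ) ^ (1 - 1 / (t : ℝ)) ≤ d := by
  refine ⟨?_, ?_, ?_⟩
  · intro p k X Y _ _ _ _ s G H hp hG hH htr f hmono hne hinvG hinvH d hd
    exact Pool.Agent.R598.EV.product hp hG hH htr hmono hne hinvG hinvH hd
  · intro p X _ _ hp
    have : Fact p.Prime := ⟨hp⟩
    refine ⟨fun a ha => Pool.Agent.R598.EV.conn_top ha, ?_⟩
    rintro G P A hPG hP hA ⟨g, hg, hgA⟩
    exact Pool.Agent.R598.EV.conn_of_move hPG hP A hA hg hgA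
  · intro k m f hmono hne hinv d hd
    exact ⟨fun p a hp ha j => Pool.Agent.R598.EV.partite hmono hne hinv hd hp ha j,
      Pool.Agent.R598.EV.partite_two hmono hne hinv hd,
      fun t ht hm => Pool.Agent.R598.EV.partite_weak ht hmono hne hinv hd hm⟩
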